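import Pool.Agent.Odp2.Defs

open scoped ContDiff Topology ENNReal NNReal WithZero
open Set MeasureTheory Filter MvPolynomial Pool.Agent.ODP

namespace Pool.Agent.Odp2

/-! ### Preliminaries -/

theorem nq_nonneg {n : ℕ} (w : Fin n → ℂ) : 0 ≤ nq w :=
  Finset.sum_nonneg fun _ _ => by positivity

theorem norm_le_sqrt_nq {n : ℕ} (w : Fin n → ℂ) (j : Fin n) : ‖w j‖ ≤ √(nq w) := by
  apply Real.le_sqrt_of_sq_le
  exact Finset.single_le_sum (f := fun j => ‖w j‖ ^ 2) (fun _ _ => by positivity)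
    (Finset.mem_univ j)

theorem bdd_aeval {n : ℕ} {B : Type} [CommRing B] [Algebra ℂ B] (y : Fin n → B) (χ : Pt B)
    (p : MvPolynomial (Fin n) ℂ) : χ (aeval y p) = eval (proj y χ) p := by
  have h : χ.comp (aeval y) = aeval (proj y χ) := by
    ext j
    simp [proj]
  have h2 := congrArg (fun f : MvPolynomial (Fin n) ℂ →ₐ[ℂ] ℂ => f p) h
  simpa [coe_aeval_eq_eval] using h2

theorem bdd_eval {n : ℕ} (p : MvPolynomial (Fin n) ℂ) (R : ℝ) :
    ∃ C : ℝ, ∀ w : Fin n → ℂ, nq w ≤ R → ‖eval w p‖ ≤ C := by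
  have hc : Continuous fun w : Fin n → ℂ => eval w p := MvPolynomial.continuous_eval p
  obtain ⟨C, hC⟩ := (isCompact_closedBall (0 : Fin n → ℂ) (√R)).exists_bound_of_continuousOn
    hc.continuousOn
  refine ⟨C, fun w hw => hC w ?_⟩
  rw [mem_closedBall_zero_iff, pi_norm_le_iff_of_nonneg (Real.sqrt_nonneg _)]
  intro j
  exact (norm_le_sqrt_nq w j).trans (Real.sqrt_le_sqrt hw)

theorem Germ.bdd {n d : ℕ} {B : Type} [CommRing B] [Algebra ℂ B] (G : Germ n d B) (b : B)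
    (R : ℝ) : ∃ C : ℝ, ∀ χ : Pt B, nq (proj G.y χ) ≤ R → ‖χ b‖ ≤ C := by
  choose C hC using fun i j => bdd_eval (G.cf (b * G.e j) i) R
  refine ⟨∑ i, ∑ j, C i j, fun χ hχ => ?_⟩
  set w := proj G.y χ with hw
  have h0 : ∀ i j, 0 ≤ C i j := fun i j => (norm_nonneg _).trans (hC i j w hχ)
  -- the vector `χ (e_i)` is not zero
  have hne : ∃ i, χ (G.e i) ≠ 0 := by
    by_contra! hcon
    have h1 := congrArg χ (G.cf_spec 1)
    rw [map_sum, map_one] at h1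
    simp [hcon] at h1
  obtain ⟨i₁, hi₁⟩ := hne
  obtain ⟨j, -, hj⟩ := Finset.exists_max_image Finset.univ (fun i => ‖χ (G.e i)‖)
    ⟨i₁, Finset.mem_univ _⟩
  have hjpos : 0 < ‖χ (G.e j)‖ := (norm_pos_iff.2 hi₁).trans_le (hj i₁ (Finset.mem_univ _))
  have key : χ b * χ (G.e j) = ∑ i, eval w (G.cf (b * G.e j) i) * χ (G.e i) := by
    have h1 := congrArg χ (G.cf_spec (b * G.e j))
    rw [map_sum, map_mul] at h1
    rw [h1]
    refine Finset.sum_congr rfl fun i _ => ?_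
    rw [map_mul, bdd_aeval]
  have hle : ‖χ b‖ * ‖χ (G.e j)‖ ≤ (∑ i, C i j) * ‖χ (G.e j)‖ := by
    rw [← norm_mul, key, Finset.sum_mul]
    refine (norm_sum_le _ _).trans (Finset.sum_le_sum fun i _ => ?_)
    rw [norm_mul]
    exact mul_le_mul (hC i j w hχ) (hj i (Finset.mem_univ _)) (norm_nonneg _) (h0 i j)
  refine (le_of_mul_le_mul_right hle hjpos).trans (Finset.sum_le_sum fun i _ => ?_)
  exact Finset.single_le_sum (f := fun j => C i j) (fun j _ => h0 i j) (Finset.mem_univ j)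

/-- The elements `b` with `|b| ≤ C |y|^m` on the bounded sets. -/
def bddIdeal {n d : ℕ} {B : Type} [CommRing B] [Algebra ℂ B] (G : Germ n d B) (R : ℝ) (m : ℕ) :
    Ideal B where
  carrier := {b | ∃ C : ℝ, 0 ≤ C ∧ ∀ χ : Pt B, nq (proj G.y χ) ≤ R →
    ‖χ b‖ ≤ C * √(nq (proj G.y χ)) ^ m}
  zero_mem' := ⟨0, le_rfl, fun χ _ => by simp⟩
  add_mem' := by
    rintro a b ⟨C, h0, hC⟩ ⟨C', h0', hC'⟩
    refine ⟨C + C', by positivity, fun χ hχ => ?_⟩
    rw [map_add, add_mul]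
    exact (norm_add_le _ _).trans (add_le_add (hC χ hχ) (hC' χ hχ))
  smul_mem' := by
    rintro c b ⟨C, h0, hC⟩
    obtain ⟨C', hC'⟩ := G.bdd c R
    refine ⟨|C'| * C, by positivity, fun χ hχ => ?_⟩
    rw [smul_eq_mul, map_mul, norm_mul, mul_assoc]
    exact mul_le_mul ((hC' χ hχ).trans (le_abs_self _)) (hC χ hχ) (norm_nonneg _) (abs_nonneg _)

theorem Germ.pow_le_bddIdeal {n d : ℕ} {B : Type} [CommRing B] [Algebra ℂ B] (G : Germ n d B)
    (R : ℝ) (m : ℕ) : Ideal.span (Set.range G.y) ^ m ≤ bddIdeal G R m := by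
  induction m with
  | zero =>
    intro b _
    obtain ⟨C, hC⟩ := G.bdd b R
    exact ⟨|C|, abs_nonneg _, fun χ hχ => by simpa using (hC χ hχ).trans (le_abs_self _)⟩
  | succ m ih =>
    rw [pow_succ, Ideal.mul_le]
    intro a ha b hb
    have h1 : Ideal.span (Set.range G.y) ≤ bddIdeal G R 1 := by
      rw [Ideal.span_le]
      rintro _ ⟨j, rfl⟩
      exact ⟨1, zero_le_one, fun χ _ => by
        rw [one_mul, pow_one]; exact norm_le_sqrt_nq (proj G.y χ) j⟩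
    obtain ⟨C, h0, hC⟩ := ih ha
    obtain ⟨C', h0', hC'⟩ := h1 hb
    refine ⟨C * C', by positivity, fun χ hχ => ?_⟩
    rw [map_mul, norm_mul]
    calc ‖χ a‖ * ‖χ b‖ ≤ (C * √(nq (proj G.y χ)) ^ m) * (C' * √(nq (proj G.y χ)) ^ 1) :=
          mul_le_mul (hC χ hχ) (hC' χ hχ) (norm_nonneg _) (by positivity)
      _ = C * C' * √(nq (proj G.y χ)) ^ (m + 1) := by ring

/-- An element of `(y)^m` is `O(|y|^m)` on the bounded sets. -/
theorem Germ.bdd_pow {n d : ℕ} {B : Type} [CommRing B] [Algebra ℂ B] (G : Germ n d B)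
    {m : ℕ} {b : B} (hb : b ∈ Ideal.span (Set.range G.y) ^ m) (R : ℝ) :
    ∃ C : ℝ, 0 ≤ C ∧ ∀ χ : Pt B, nq (proj G.y χ) ≤ R →
      ‖χ b‖ ≤ C * √(nq (proj G.y χ)) ^ m := G.pow_le_bddIdeal R m hb

theorem IsSep.dich {n d : ℕ} {B : Type} [CommRing B] [Algebra ℂ B] {G : Germ n d B} {x : Pt B}
    {sg : B} {m : ℕ} (hm : 1 ≤ m) (h : IsSep G x m sg) :
    ∃ ρ₀ C : ℝ, 0 < ρ₀ ∧ ∀ χ : Pt B, nq (proj G.y χ) < ρ₀ ^ 2 →
      (‖χ sg - 1‖ < 1 / 4 ∧ ‖χ sg - 1‖ ≤ C * √(nq (proj G.y χ)) ^ m) ∨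
      (‖χ sg‖ < 1 / 4 ∧ ‖χ sg‖ ≤ C * √(nq (proj G.y χ)) ^ m) := by
  obtain ⟨C, h0, hC⟩ := G.bdd_pow h.idem 1
  refine ⟨1 / (8 * (C + 1)), 2 * C, by positivity, fun χ hχ => ?_⟩
  set t := √(nq (proj G.y χ)) with ht
  have ht0 : 0 ≤ t := Real.sqrt_nonneg _
  have htlt : t < 1 / (8 * (C + 1)) := (Real.sqrt_lt' (by positivity)).2 hχ
  have hle1 : 1 / (8 * (C + 1)) ≤ 1 := by
    rw [div_le_one (by positivity)]; linarith
  have ht1 : t ≤ 1 := htlt.le.trans hle1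
  have hnq : nq (proj G.y χ) ≤ 1 := hχ.le.trans (by
    have : (0:ℝ) ≤ 1 / (8 * (C + 1)) := by positivity
    nlinarith)
  have hb := hC χ hnq
  have htm : t ^ m ≤ t := by
    calc t ^ m ≤ t ^ 1 := pow_le_pow_of_le_one ht0 ht1 hm
      _ = t := pow_one t
  have hsmall : 2 * C * t ^ m < 1 / 4 := by
    have h1 : 2 * C * t ^ m ≤ 2 * C * t := by gcongr
    have h2 : t * (8 * (C + 1)) < 1 := by
      rwa [lt_div_iff₀ (by positivity)] at htlt
    nlinarith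
  have hfac : χ (sg ^ 2 - sg) = χ sg * (χ sg - 1) := by
    rw [map_sub, map_pow]; ring
  rw [hfac, norm_mul] at hb
  have hsum : 1 ≤ ‖χ sg‖ + ‖χ sg - 1‖ := by
    calc (1:ℝ) = ‖χ sg - (χ sg - 1)‖ := by simp
      _ ≤ _ := norm_sub_le _ _
  rcases le_total ‖χ sg - 1‖ ‖χ sg‖ with hc | hc
  · left
    have : ‖χ sg - 1‖ ≤ 2 * C * t ^ m := by
      have h1 : 1 / 2 ≤ ‖χ sg‖ := by linarith
      nlinarith [norm_nonneg (χ sg - 1)]
    exact ⟨this.trans_lt hsmall, this⟩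
  · right
    have : ‖χ sg‖ ≤ 2 * C * t ^ m := by
      have h1 : 1 / 2 ≤ ‖χ sg - 1‖ := by linarith
      nlinarith [norm_nonneg (χ sg)]
    exact ⟨this.trans_lt hsmall, this⟩

/-- the sets `UU G sg ρ` shrink to `x`. -/
theorem IsSep.tends {n d : ℕ} {B : Type} [CommRing B] [Algebra ℂ B] {G : Germ n d B} {x : Pt B}
    {sg : B} {m : ℕ} (hm : 1 ≤ m) (h : IsSep G x m sg) (b : B) {ε : ℝ} (hε : 0 < ε) :
    ∃ ρ : ℝ, 0 < ρ ∧ ∀ χ ∈ UU G sg ρ, ‖χ b - x b‖ < ε := by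
  have _ := hm
  obtain ⟨L, hL⟩ := h.nil (b - algebraMap ℂ B (x b)) (by simp)
  obtain ⟨C, h0, hC⟩ := G.bdd_pow (m := 1) (by simpa using hL) 1
  refine ⟨min 1 (ε ^ L / (2 * (C + 1))), by positivity, fun χ hχ => ?_⟩
  obtain ⟨h1, h2⟩ := hχ
  set t := √(nq (proj G.y χ)) with ht
  have ht0 : 0 ≤ t := Real.sqrt_nonneg _
  have htlt : t < min 1 (ε ^ L / (2 * (C + 1))) := (Real.sqrt_lt' (by positivity)).2 h1
  have hnq : nq (proj G.y χ) ≤ 1 := h1.le.trans (by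
    have h3 : (0:ℝ) ≤ min 1 (ε ^ L / (2 * (C + 1))) := by positivity
    have h4 : min 1 (ε ^ L / (2 * (C + 1))) ≤ 1 := min_le_left _ _
    nlinarith)
  have hb := hC χ hnq
  rw [map_mul, map_pow, norm_mul, norm_pow, pow_one] at hb
  have hx : χ (b - algebraMap ℂ B (x b)) = χ b - x b := by
    rw [map_sub, AlgHom.commutes]; rfl
  rw [hx] at hb
  have hsg : 1 / 2 ≤ ‖χ sg‖ := by
    have : (1:ℝ) ≤ ‖χ sg‖ + ‖χ sg - 1‖ := by
      calc (1:ℝ) = ‖χ sg - (χ sg - 1)‖ := by simp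
        _ ≤ _ := norm_sub_le _ _
    linarith
  have hlt2 : t * (2 * (C + 1)) < ε ^ L := by
    have := htlt.trans_le (min_le_right _ _)
    rwa [lt_div_iff₀ (by positivity)] at this
  have hpow : ‖χ b - x b‖ ^ L < ε ^ L := by
    have h5 : 0 ≤ ‖χ b - x b‖ ^ L := by positivity
    have h6 : ‖χ b - x b‖ ^ L * (1 / 2) ≤ C * t := (by gcongr : _ ≤ _).trans hb
    nlinarith
  exact lt_of_pow_lt_pow_left₀ L hε.le hpow

theorem sumI_mono {n d : ℕ} {B : Type} [CommRing B] [Algebra ℂ B] (G : Germ n d B)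
    {S S' : Set (Pt B)} (h : S ⊆ S') (F : Pt B → ℝ≥0∞) : sumI G S F ≤ sumI G S' F := by
  refine lintegral_mono fun w => ?_
  exact ENNReal.tsum_mono_subtype F
    (s := {χ : Pt B | χ ∈ S ∧ proj G.y χ = w}) (t := {χ : Pt B | χ ∈ S' ∧ proj G.y χ = w})
    fun χ hχ => ⟨h hχ.1, hχ.2⟩

/-- neighbourhoods of `x` contain some `UU G sg ρ` and conversely. -/
theorem IsSep.near {n d : ℕ} {B : Type} [CommRing B] [Algebra ℂ B] {G : Germ n d B} {x : Pt B}
    {sg : B} {m : ℕ} (hm : 1 ≤ m) (h : IsSep G x m sg) (b : B) (s : ℝ) (F : Pt B → ℝ≥0∞) :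
    NearInt G.y b s x F ↔ ∃ ρ : ℝ, 0 < ρ ∧
      sumI G (UU G sg ρ) (fun χ => F χ * ‖χ b‖ₑ ^ (-(2 * s))) ≠ ⊤ := by
  classical
  constructor
  · rintro ⟨T, ε, hε, hT⟩
    have key : ∃ ρ : ℝ, 0 < ρ ∧ UU G sg ρ ⊆ nbhd x T ε := by
      clear hT
      induction T using Finset.induction_on with
      | empty => exact ⟨1, one_pos, fun χ _ b hb => absurd hb (Finset.notMem_empty b)⟩
      | insert a T _ ih =>
        obtain ⟨ρ, hρ, h1⟩ := ih
        obtain ⟨ρ', hρ', h2⟩ := h.tends hm a hε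
        refine ⟨min ρ ρ', lt_min hρ hρ', fun χ hχ c hc => ?_⟩
        have hpos : 0 < min ρ ρ' := lt_min hρ hρ'
        rcases Finset.mem_insert.1 hc with rfl | hc
        · exact h2 χ ⟨hχ.1.trans_le (by gcongr; exact min_le_right _ _), hχ.2⟩
        · exact h1 ⟨hχ.1.trans_le (by gcongr; exact min_le_left _ _), hχ.2⟩ c hc
    obtain ⟨ρ, hρ, hsub⟩ := key
    refine ⟨ρ, hρ, ne_top_of_le_ne_top hT ?_⟩
    exact sumI_mono G hsub _
  · rintro ⟨ρ, hρ, hS⟩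
    refine ⟨insert sg (Finset.univ.image G.y), min (1 / 2) (ρ / (n + 1)), by positivity,
      ne_top_of_le_ne_top hS ?_⟩
    have hsub : nbhd x (insert sg (Finset.univ.image G.y)) (min (1 / 2) (ρ / (n + 1))) ⊆
        UU G sg ρ := by
      intro χ hχ
      refine ⟨?_, ?_⟩
      rotate_left
      · have h1 := hχ sg (Finset.mem_insert_self _ _)
        rw [h.x_sg] at h1
        exact h1.trans_le (min_le_left _ _)
      have hj : ∀ j, ‖proj G.y χ j‖ < ρ / (n + 1) := fun j => by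
        have h1 := hχ (G.y j) (Finset.mem_insert_of_mem (Finset.mem_image_of_mem _
          (Finset.mem_univ j)))
        have h2 : x (G.y j) = 0 := congrFun h.x_y j
        rw [h2, sub_zero] at h1
        exact h1.trans_le (min_le_right _ _)
      have h3 : nq (proj G.y χ) ≤ ∑ _j : Fin n, (ρ / (n + 1)) ^ 2 :=
        Finset.sum_le_sum fun j _ => by
          have := (hj j).le
          gcongr
      rw [Finset.sum_const, Finset.card_univ, Fintype.card_fin, nsmul_eq_mul] at h3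
      refine h3.trans_lt ?_
      have hn : (0:ℝ) < n + 1 := by positivity
      rw [div_pow, ← mul_div_assoc, div_lt_iff₀ (by positivity)]
      nlinarith [sq_pos_of_pos hρ, sq_nonneg (n:ℝ)]
    exact sumI_mono G hsub _

end Pool.Agent.Odp2
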