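import Pool.Agent.Odp2.Defs
import Pool.Agent.Odp2.Pt.Bdd

open scoped ContDiff Topology ENNReal NNReal WithZero
open Set MeasureTheory Filter MvPolynomial Pool.Agent.ODP

namespace Pool.Agent.Odp2

/-! ### `B` is noetherian -/

theorem Germ.red_noeth {n d : ℕ} {B : Type} [CommRing B] [Algebra ℂ B] (G : Germ n d B) :
    IsNoetherianRing B := by
  classical
  let _ : Algebra (MvPolynomial (Fin n) ℂ) B := (aeval G.y).toRingHom.toAlgebra
  have hs : ∀ (p : MvPolynomial (Fin n) ℂ) (b : B), p • b = aeval G.y p * b := fun p b => rfl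
  have _ : Module.Finite (MvPolynomial (Fin n) ℂ) B := by
    refine ⟨⟨Finset.univ.image G.e, ?_⟩⟩
    rw [eq_top_iff]
    intro b _
    rw [G.cf_spec b]
    refine Submodule.sum_mem _ fun i _ => ?_
    rw [← hs]
    exact Submodule.smul_mem _ _ (Submodule.subset_span (by simp))
  exact IsNoetherianRing.of_finite (MvPolynomial (Fin n) ℂ) B

/-! ### Ideals defined by bounds -/

/-- The elements `b` with `|b| ≤ C w` on the unit ball. -/
def redIdeal {n d : ℕ} {B : Type} [CommRing B] [Algebra ℂ B] (G : Germ n d B) (w : Pt B → ℝ) :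
    Ideal B where
  carrier := {b | ∃ C : ℝ, 0 ≤ C ∧ ∀ χ : Pt B, nq (proj G.y χ) ≤ 1 → ‖χ b‖ ≤ C * w χ}
  zero_mem' := ⟨0, le_rfl, fun χ _ => by simp⟩
  add_mem' := by
    rintro a b ⟨C, h0, hC⟩ ⟨C', h0', hC'⟩
    refine ⟨C + C', by positivity, fun χ hχ => ?_⟩
    rw [map_add, add_mul]
    exact (norm_add_le _ _).trans (add_le_add (hC χ hχ) (hC' χ hχ))
  smul_mem' := by
    rintro c b ⟨C, h0, hC⟩
    obtain ⟨C', hC'⟩ := G.bdd c 1
    refine ⟨|C'| * C, by positivity, fun χ hχ => ?_⟩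
    rw [smul_eq_mul, map_mul, norm_mul, mul_assoc]
    exact mul_le_mul ((hC' χ hχ).trans (le_abs_self _)) (hC χ hχ) (norm_nonneg _) (abs_nonneg _)

theorem redIdeal_mul {n d : ℕ} {B : Type} [CommRing B] [Algebra ℂ B] (G : Germ n d B)
    {w w' : Pt B → ℝ} {I J : Ideal B} (hI : I ≤ redIdeal G w)
    (hJ : J ≤ redIdeal G w') : I * J ≤ redIdeal G (fun χ => w χ * w' χ) := by
  rw [Ideal.mul_le]
  intro a ha b hb
  obtain ⟨C, h0, hC⟩ := hI ha
  obtain ⟨C', h0', hC'⟩ := hJ hb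
  refine ⟨C * C', by positivity, fun χ hχ => ?_⟩
  rw [map_mul, norm_mul]
  have h1 : 0 ≤ C * w χ := (norm_nonneg _).trans (hC χ hχ)
  calc ‖χ a‖ * ‖χ b‖ ≤ (C * w χ) * (C' * w' χ) :=
        mul_le_mul (hC χ hχ) (hC' χ hχ) (norm_nonneg _) h1
    _ = C * C' * (w χ * w' χ) := by ring

theorem redIdeal_pow {n d : ℕ} {B : Type} [CommRing B] [Algebra ℂ B] (G : Germ n d B)
    {w : Pt B → ℝ} {I : Ideal B} (hI : I ≤ redIdeal G w) (k : ℕ) :
    I ^ k ≤ redIdeal G (fun χ => w χ ^ k) := by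
  induction k with
  | zero =>
    intro b _
    obtain ⟨C, hC⟩ := G.bdd b 1
    exact ⟨|C|, abs_nonneg _, fun χ hχ => by simpa using (hC χ hχ).trans (le_abs_self _)⟩
  | succ k ih =>
    have h := redIdeal_mul G ih hI
    rw [← pow_succ] at h
    exact h.trans (le_of_eq (by simp only [pow_succ]))

/-! ### The reduction property without localization -/

theorem red_clear {n : ℕ} {B : Type} [CommRing B] [IsDomain B] [IsNoetherianRing B]
    (P : Ideal B) [P.IsPrime] {y : Fin n → B} (hred : IsReductionAt P y) :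
    ∃ (N : ℕ) (s : B), s ∉ P ∧ ∀ a ∈ P ^ (N + 1), s * a ∈ Ideal.span (Set.range y) * P ^ N := by
  classical
  obtain ⟨N, hN⟩ := hred
  have hinj : Function.Injective (algebraMap B (Localization.AtPrime P)) :=
    IsLocalization.injective _ P.primeCompl_le_nonZeroDivisors
  rw [paramIdeal, ← Localization.AtPrime.map_eq_maximalIdeal, ← Ideal.map_pow, ← Ideal.map_pow,
    ← Ideal.map_mul] at hN
  have key : ∀ a ∈ P ^ (N + 1), ∃ s : B, s ∉ P ∧ s * a ∈ Ideal.span (Set.range y) * P ^ N := by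
    intro a ha
    have h1 := hN (Ideal.mem_map_of_mem _ ha)
    rw [IsLocalization.mem_map_algebraMap_iff P.primeCompl] at h1
    obtain ⟨⟨b, s⟩, hb⟩ := h1
    refine ⟨s, s.2, ?_⟩
    rw [← map_mul] at hb
    have h2 : (s : B) * a = b := (mul_comm _ _).trans (hinj hb)
    rw [h2]
    exact b.2
  obtain ⟨T, hT⟩ := IsNoetherian.noetherian (P ^ (N + 1))
  have hTm : ∀ t ∈ T, t ∈ P ^ (N + 1) := fun t ht => by
    rw [← hT]; exact Submodule.subset_span ht
  choose! s hs hs2 using key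
  refine ⟨N, ∏ t ∈ T, s t, ?_, ?_⟩
  · rw [Ideal.IsPrime.prod_mem_iff]
    rintro ⟨t, ht, h⟩
    exact hs t (hTm t ht) h
  · intro a ha
    rw [← hT] at ha
    induction ha using Submodule.span_induction with
    | mem t ht =>
      rw [← Finset.mul_prod_erase T s ht, mul_assoc, mul_comm (∏ x ∈ T.erase t, s x) t,
        ← mul_assoc]
      exact Ideal.mul_mem_right _ _ (hs2 t (hTm t ht))
    | zero => rw [mul_zero]; exact Ideal.zero_mem _
    | add a b _ _ ha hb => rw [mul_add]; exact Ideal.add_mem _ ha hb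
    | smul c a _ ha =>
      rw [smul_eq_mul, mul_left_comm]
      exact Ideal.mul_mem_left _ _ ha

/-- `(y)` is a reduction of the maximal ideal. -/
theorem IsSep.red {n d : ℕ} {B : Type} [CommRing B] [IsDomain B] [Algebra ℂ B] {G : Germ n d B}
    {x : Pt B} {sg : B} {m : ℕ} (hm : 1 ≤ m) (h : IsSep G x m sg)
    (hred : IsReductionAt (RingHom.ker x) G.y) {z : B} (hz : x z = 0) :
    ∃ C ρ : ℝ, 0 < ρ ∧ ∀ χ ∈ UU G sg ρ, ‖χ z‖ ^ 2 ≤ C * nq (proj G.y χ) := by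
  classical
  have := G.red_noeth
  obtain ⟨N, s, hs, hsa⟩ := red_clear (RingHom.ker x) hred
  have hxs : x s ≠ 0 := hs
  obtain ⟨F, hF⟩ := IsNoetherian.noetherian (RingHom.ker x)
  -- the sum of the norms of the generators
  set M : Pt B → ℝ := fun χ => ∑ g ∈ F, ‖χ g‖ with hM
  have hM0 : ∀ χ, 0 ≤ M χ := fun χ => Finset.sum_nonneg fun _ _ => norm_nonneg _
  have hP : RingHom.ker x ≤ redIdeal G M := by
    rw [← hF]
    refine Submodule.span_le.2 fun g hg => ?_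
    refine ⟨1, zero_le_one, fun χ _ => ?_⟩
    rw [one_mul]
    exact Finset.single_le_sum (f := fun g => ‖χ g‖) (fun _ _ => norm_nonneg _) hg
  have hQ : Ideal.span (Set.range G.y) ≤ redIdeal G (fun χ => √(nq (proj G.y χ))) := by
    rw [Ideal.span_le]
    rintro _ ⟨j, rfl⟩
    exact ⟨1, zero_le_one, fun χ _ => by
      rw [one_mul]; exact norm_le_sqrt_nq (proj G.y χ) j⟩
  have hQP := redIdeal_mul G hQ (redIdeal_pow G hP N)
  -- the constants
  have hg : ∀ g ∈ F, ∃ C : ℝ, 0 ≤ C ∧ ∀ χ : Pt B, nq (proj G.y χ) ≤ 1 →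
      ‖χ (s * g ^ (N + 1))‖ ≤ C * (√(nq (proj G.y χ)) * M χ ^ N) := by
    intro g hg
    have hgP : g ∈ RingHom.ker x := by rw [← hF]; exact Submodule.subset_span hg
    exact hQP (hsa _ (Ideal.pow_mem_pow hgP (N + 1)))
  choose! C hC0 hC using hg
  obtain ⟨Cz, hCz0, hCz⟩ := hP (show z ∈ RingHom.ker x from hz)
  obtain ⟨ρ₁, hρ₁, h1⟩ := h.tends hm s (ε := ‖x s‖ / 2) (by positivity)
  set K : ℝ := ∑ g ∈ F, C g with hK
  have hK0 : 0 ≤ K := Finset.sum_nonneg fun g hg => hC0 g hg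
  set c : ℝ := (F.card : ℝ) with hc
  have hc0 : 0 ≤ c := by positivity
  set A : ℝ := 2 * K * c ^ N / ‖x s‖ with hA
  have hA0 : 0 ≤ A := by positivity
  refine ⟨(Cz * (c * A)) ^ 2, min ρ₁ 1, lt_min hρ₁ one_pos, fun χ hχ => ?_⟩
  have hpos : 0 < min ρ₁ 1 := lt_min hρ₁ one_pos
  have hχ1 : χ ∈ UU G sg ρ₁ :=
    ⟨hχ.1.trans_le (by gcongr; exact min_le_left _ _), hχ.2⟩
  have hnq : nq (proj G.y χ) ≤ 1 := hχ.1.le.trans (by
    have : min ρ₁ 1 ≤ 1 := min_le_right _ _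
    nlinarith)
  have hsχ : ‖x s‖ / 2 ≤ ‖χ s‖ := by
    have h2 := h1 χ hχ1
    have h3 : ‖x s‖ ≤ ‖χ s‖ + ‖χ s - x s‖ := by
      calc ‖x s‖ = ‖χ s - (χ s - x s)‖ := by congr 1; ring
        _ ≤ _ := norm_sub_le _ _
    linarith
  set t := √(nq (proj G.y χ)) with ht
  have ht0 : 0 ≤ t := Real.sqrt_nonneg _
  -- the bound for the generators
  have hMle : M χ ≤ c * (A * t) := by
    rcases F.eq_empty_or_nonempty with hFe | hFn
    · have : M χ = 0 := by simp [hM, hFe]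
      rw [this]; positivity
    obtain ⟨g, hgF, hgmax⟩ := Finset.exists_max_image F (fun g => ‖χ g‖) hFn
    have hMg : M χ ≤ c * ‖χ g‖ := by
      have := Finset.sum_le_card_nsmul F (fun g => ‖χ g‖) ‖χ g‖ hgmax
      simpa [hM, hc, nsmul_eq_mul] using this
    refine hMg.trans (mul_le_mul_of_nonneg_left ?_ hc0)
    rcases (norm_nonneg (χ g)).eq_or_lt with hz0 | hgpos
    · rw [← hz0]; positivity
    have h4 := hC g hgF χ hnq
    rw [map_mul, map_pow, norm_mul, norm_pow] at h4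
    have h5 : C g ≤ K := Finset.single_le_sum (f := C) (fun g hg => hC0 g hg) hgF
    have h6 : M χ ^ N ≤ c ^ N * ‖χ g‖ ^ N := by
      rw [← mul_pow]; exact pow_le_pow_left₀ (hM0 χ) hMg N
    have h7 : ‖x s‖ / 2 * ‖χ g‖ ^ (N + 1) ≤ K * (t * (c ^ N * ‖χ g‖ ^ N)) := by
      calc ‖x s‖ / 2 * ‖χ g‖ ^ (N + 1) ≤ ‖χ s‖ * ‖χ g‖ ^ (N + 1) := by gcongr
        _ ≤ C g * (t * M χ ^ N) := h4
        _ ≤ K * (t * (c ^ N * ‖χ g‖ ^ N)) := by
          have := hM0 χ
          gcongr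
    have h8 : ‖x s‖ / 2 * ‖χ g‖ ≤ K * (t * c ^ N) := by
      have hgN : 0 < ‖χ g‖ ^ N := by positivity
      refine le_of_mul_le_mul_right ?_ hgN
      calc ‖x s‖ / 2 * ‖χ g‖ * ‖χ g‖ ^ N = ‖x s‖ / 2 * ‖χ g‖ ^ (N + 1) := by ring
        _ ≤ K * (t * (c ^ N * ‖χ g‖ ^ N)) := h7
        _ = K * (t * c ^ N) * ‖χ g‖ ^ N := by ring
    have hxs0 : 0 < ‖x s‖ := norm_pos_iff.2 hxs
    rw [hA, div_mul_eq_mul_div, le_div_iff₀ hxs0]
    nlinarith
  have hfin : ‖χ z‖ ≤ Cz * (c * A) * t := by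
    refine (hCz χ hnq).trans ?_
    calc Cz * M χ ≤ Cz * (c * (A * t)) := by gcongr
      _ = Cz * (c * A) * t := by ring
  have ht2 : t ^ 2 = nq (proj G.y χ) := Real.sq_sqrt (nq_nonneg _)
  calc ‖χ z‖ ^ 2 ≤ (Cz * (c * A) * t) ^ 2 := pow_le_pow_left₀ (norm_nonneg _) hfin 2
    _ = (Cz * (c * A)) ^ 2 * nq (proj G.y χ) := by rw [mul_pow, ht2]

end Pool.Agent.Odp2
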