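import Pool.Agent.Odp2.Defs
import Pool.Agent.Odp2.Pt.Bdd
import Pool.Agent.Odp2.Alg.Count
import Pool.Agent.Odp2.Alg.Sep

open scoped ContDiff Topology ENNReal NNReal WithZero
open Set MeasureTheory Filter MvPolynomial Pool.Agent.ODP

namespace Pool.Agent.Odp2

/-- the sum of `b` over the points of a fibre is the trace of the multiplication by `b`. -/
theorem Germ.sheets_sum {n d : ℕ} {B : Type} [CommRing B] [Algebra ℂ B] (G : Germ n d B)
    {w : Fin n → ℂ} (hw : eval w G.D ≠ 0) (b : B) (s : Fin d → Pt B)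
    (hs : ∀ i, proj G.y (s i) = w) (hinj : Function.Injective s) :
    ∑ i, s i b = eval w (∑ k, G.cf (b * G.e k) k) := by
  classical
  let A : Matrix (Fin d) (Fin d) ℂ := fun i k => s i (G.e k)
  let C : Matrix (Fin d) (Fin d) ℂ := fun i k => (eval w G.D)⁻¹ * s i (G.du k)
  let M : Matrix (Fin d) (Fin d) ℂ := fun k l => eval w (G.cf (b * G.e k) l)
  have h1 : C * A.transpose = 1 := by
    ext i j
    rw [Matrix.mul_apply]
    have h2 : ∑ k, C i k * A.transpose k j =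
        (eval w G.D)⁻¹ * ∑ k, s i (G.du k) * s j (G.e k) := by
      rw [Finset.mul_sum]
      refine Finset.sum_congr rfl fun k _ => ?_
      change (eval w G.D)⁻¹ * s i (G.du k) * s j (G.e k) = _
      ring
    rw [h2]
    obtain ⟨h3, h4⟩ := G.du_spec w hw (s i) (s j) (hs i) (hs j)
    by_cases hij : i = j
    · subst hij
      rw [h3 rfl, Matrix.one_apply_eq, inv_mul_cancel₀ hw]
    · rw [h4 fun h => hij (hinj h), Matrix.one_apply_ne hij, mul_zero]
  have h5 : C.transpose * A = 1 := by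
    have := mul_eq_one_comm.1 h1
    have h6 := congrArg Matrix.transpose this
    rwa [Matrix.transpose_mul, Matrix.transpose_transpose, Matrix.transpose_one] at h6
  have h7 : A * M.transpose = Matrix.diagonal (fun i => s i b) * A := by
    ext i k
    rw [Matrix.mul_apply, Matrix.diagonal_mul]
    have h8 := congrArg (s i) (G.cf_spec (b * G.e k))
    rw [map_sum, map_mul] at h8
    change ∑ l, s i (G.e l) * eval w (G.cf (b * G.e k) l) = s i b * s i (G.e k)
    rw [h8]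
    refine Finset.sum_congr rfl fun l _ => ?_
    rw [map_mul, bdd_aeval, hs i, mul_comm]
  have h9 : M.transpose = C.transpose * (Matrix.diagonal (fun i => s i b) * A) := by
    rw [← h7, ← Matrix.mul_assoc, h5, Matrix.one_mul]
  have h10 : M.trace = ∑ i, s i b := by
    rw [← Matrix.trace_transpose, h9, Matrix.trace_mul_comm, Matrix.mul_assoc,
      mul_eq_one_comm.1 h5, Matrix.mul_one, Matrix.trace_diagonal]
  rw [← h10, map_sum]
  rfl

theorem Germ.sheets_d_pos {n d : ℕ} {B : Type} [CommRing B] [Algebra ℂ B] (G : Germ n d B)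
    (x : Pt B) : 0 < d := by
  rcases Nat.eq_zero_or_pos d with rfl | h
  · exfalso
    have h1 := congrArg x (G.cf_spec 1)
    rw [map_sum, map_one] at h1
    simp at h1
  · exact h

/-- the fibre over a point outside of the discriminant. -/
theorem Germ.sheets_fibre {n d : ℕ} {B : Type} [CommRing B] [Algebra ℂ B] (G : Germ n d B)
    (x : Pt B) {w : Fin n → ℂ} (hw : eval w G.D ≠ 0) :
    ∃ S : Finset (Pt B), (∀ χ, χ ∈ S ↔ proj G.y χ = w) ∧ S.card = d ∧
      ∀ b, ∑ χ ∈ S, χ b = eval w (∑ k, G.cf (b * G.e k) k) := by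
  have hd := G.sheets_d_pos x
  have hc := G.card w hw
  have hfin : {χ : Pt B | proj G.y χ = w}.Finite :=
    Set.finite_of_ncard_pos (by rw [hc]; exact hd)
  have hcard : hfin.toFinset.card = d := (Set.ncard_eq_toFinset_card _ hfin).symm.trans hc
  refine ⟨hfin.toFinset, fun χ => by simp, hcard, fun b => ?_⟩
  let φ := hfin.toFinset.equivFinOfCardEq hcard
  have h1 : ∀ i, proj G.y (φ.symm i : Pt B) = w := fun i => by
    have := (φ.symm i).2
    rwa [Set.Finite.mem_toFinset] at this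
  have h2 : Function.Injective fun i => (φ.symm i : Pt B) := fun i j hij =>
    φ.symm.injective (Subtype.ext hij)
  rw [← G.sheets_sum hw b (fun i => (φ.symm i : Pt B)) h1 h2,
    ← Finset.sum_coe_sort hfin.toFinset (fun χ => χ b)]
  exact (Equiv.sum_comp φ.symm fun χ : hfin.toFinset => (χ : Pt B) b).symm

theorem sheets_norm_lt {n : ℕ} {w : Fin n → ℂ} {δ : ℝ} (hδ : 0 < δ) (h : nq w < δ ^ 2) :
    ‖w‖ < δ := by
  rw [pi_norm_lt_iff hδ]
  intro j
  refine (norm_le_sqrt_nq w j).trans_lt ?_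
  rwa [Real.sqrt_lt' hδ]

/-- the number of sheets near `x`. -/
theorem IsSep.sheets {n d : ℕ} {B : Type} [CommRing B] [IsDomain B] [Algebra ℂ B]
    {G : Germ n d B} {x : Pt B} {sg : B} {m : ℕ} (hm : 1 ≤ m) (h : IsSep G x m sg) :
    ∃ ρ₀ : ℝ, 0 < ρ₀ ∧ ∀ w : Fin n → ℂ, nq w < ρ₀ ^ 2 → eval w G.D ≠ 0 →
      {χ : Pt B | proj G.y χ = w ∧ ‖χ sg - 1‖ < 1 / 2}.ncard =
        paramLength ℂ (RingHom.ker x) G.y := by
  classical
  have h1 : IsSep G x 1 sg := ⟨h.x_y, h.x_sg, Ideal.pow_le_pow_right hm h.idem, h.nil⟩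
  have htr := h1.trace
  obtain ⟨ρ₁, C, hρ₁, hC⟩ := h.dich hm
  set τ : (Fin n → ℂ) → ℂ := fun w => eval w (∑ k, G.cf (sg * G.e k) k) with hτ
  have hcont : Continuous τ := MvPolynomial.continuous_eval _
  obtain ⟨δ, hδ, hδτ⟩ := Metric.continuousAt_iff.1 (hcont.continuousAt (x := 0)) (1 / 2)
    (by norm_num)
  set C' : ℝ := |C| + 1 with hC'
  have hC'0 : 0 < C' := by positivity
  set ρ₂ : ℝ := 1 / (2 * (d + 1) * C') with hρ₂
  have hρ₂0 : 0 < ρ₂ := by positivity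
  set ρ : ℝ := min (min ρ₁ δ) (min 1 ρ₂) with hρ
  have hρ0 : 0 < ρ := by positivity
  refine ⟨ρ, hρ0, fun w hw hD => ?_⟩
  obtain ⟨S, hS, hcard, hsum⟩ := G.sheets_fibre x hD
  have hset : {χ : Pt B | proj G.y χ = w ∧ ‖χ sg - 1‖ < 1 / 2} =
      ((S.filter fun χ => ‖χ sg - 1‖ < 1 / 2 : Finset (Pt B)) : Set (Pt B)) := by
    ext χ
    simp [hS]
  rw [hset, Set.ncard_coe_finset]
  set N := (S.filter fun χ => ‖χ sg - 1‖ < 1 / 2).card with hN
  have hw1 : nq w < ρ₁ ^ 2 := hw.trans_le (by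
    gcongr; exact (min_le_left _ _).trans (min_le_left _ _))
  have hwδ : ‖w‖ < δ := sheets_norm_lt hδ (hw.trans_le (by
    gcongr; exact (min_le_left _ _).trans (min_le_right _ _)))
  have ht0 : 0 ≤ √(nq w) := Real.sqrt_nonneg _
  have htρ : √(nq w) < ρ := by rwa [Real.sqrt_lt' hρ0]
  have ht1 : √(nq w) ≤ 1 := htρ.le.trans ((min_le_right _ _).trans (min_le_left _ _))
  have ht2 : √(nq w) < ρ₂ := htρ.trans_le ((min_le_right _ _).trans (min_le_right _ _))
  have htm : √(nq w) ^ m ≤ √(nq w) := by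
    calc √(nq w) ^ m ≤ √(nq w) ^ 1 := pow_le_pow_of_le_one ht0 ht1 hm
      _ = √(nq w) := pow_one _
  have herr : ∀ χ ∈ S, ‖χ sg - (if ‖χ sg - 1‖ < 1 / 2 then 1 else 0)‖ ≤ C' * √(nq w) := by
    intro χ hχ
    have hp : proj G.y χ = w := (hS χ).1 hχ
    have h2 : C * √(nq w) ^ m ≤ C' * √(nq w) := by
      have h3 : C ≤ C' := (le_abs_self C).trans (by rw [hC']; linarith)
      calc C * √(nq w) ^ m ≤ C' * √(nq w) ^ m := by gcongr
        _ ≤ C' * √(nq w) := by gcongr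
    have h4 := hC χ (by rw [hp]; exact hw1)
    rw [hp] at h4
    rcases h4 with ⟨h5, h6⟩ | ⟨h5, h6⟩
    · rw [if_pos (by linarith)]
      exact h6.trans h2
    · rw [if_neg, sub_zero]
      · exact h6.trans h2
      · intro h7
        have h8 : (1 : ℝ) ≤ ‖χ sg‖ + ‖χ sg - 1‖ := by
          calc (1 : ℝ) = ‖χ sg - (χ sg - 1)‖ := by simp
            _ ≤ _ := norm_sub_le _ _
        linarith
  have hsub : ‖τ w - N‖ ≤ d * (C' * √(nq w)) := by
    have h3 : τ w - N = ∑ χ ∈ S, (χ sg - (if ‖χ sg - 1‖ < 1 / 2 then 1 else 0)) := by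
      rw [Finset.sum_sub_distrib, hsum sg, Finset.sum_boole, hτ, hN]
    rw [h3]
    refine (norm_sum_le _ _).trans ((Finset.sum_le_sum herr).trans ?_)
    rw [Finset.sum_const, hcard, nsmul_eq_mul]
  have hlt : d * (C' * √(nq w)) < 1 / 2 := by
    have h3 : √(nq w) * (2 * (d + 1) * C') < 1 := by
      rwa [hρ₂, lt_div_iff₀ (by positivity)] at ht2
    nlinarith [mul_nonneg hC'0.le ht0]
  have hτ0 : ‖τ w - (paramLength ℂ (RingHom.ker x) G.y : ℂ)‖ < 1 / 2 := by
    have h3 := hδτ (x := w) (by rwa [dist_zero_right])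
    rw [dist_eq_norm] at h3
    have h4 : τ 0 = (paramLength ℂ (RingHom.ker x) G.y : ℂ) := htr
    rwa [h4] at h3
  have hfin : ‖((N : ℤ) : ℂ) - ((paramLength ℂ (RingHom.ker x) G.y : ℤ) : ℂ)‖ < 1 := by
    calc ‖((N : ℤ) : ℂ) - ((paramLength ℂ (RingHom.ker x) G.y : ℤ) : ℂ)‖
        = ‖(τ w - (paramLength ℂ (RingHom.ker x) G.y : ℂ)) - (τ w - N)‖ := by
          congr 1; push_cast; ring
      _ ≤ _ := norm_sub_le _ _
      _ < 1 := by linarith
  rw [← Int.cast_sub, Complex.norm_intCast] at hfin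
  have h3 : |(N : ℤ) - (paramLength ℂ (RingHom.ker x) G.y : ℤ)| < 1 := by exact_mod_cast hfin
  rw [Int.abs_lt_one_iff] at h3
  omega

/-- there are points outside of the discriminant near `0`. -/
theorem sheets_eval_ne {n : ℕ} {p : MvPolynomial (Fin n) ℂ} (hp : p ≠ 0) {ρ : ℝ} (hρ : 0 < ρ) :
    ∃ w : Fin n → ℂ, nq w < ρ ^ 2 ∧ eval w p ≠ 0 := by
  by_contra! hcon
  apply hp
  have hδ : 0 < ρ / (n + 1) := by positivity
  refine MvPolynomial.funext_set (s := fun _ => Metric.ball (0 : ℂ) (ρ / (n + 1))) (fun _ => ?_)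
    fun w hw => ?_
  · exact infinite_of_mem_nhds (0 : ℂ) (Metric.ball_mem_nhds _ hδ)
  · rw [map_zero]
    refine hcon w ?_
    have hj : ∀ j, ‖w j‖ < ρ / (n + 1) := fun j => by
      have := hw j (mem_univ j)
      rwa [Metric.mem_ball, dist_zero_right] at this
    have h3 : nq w ≤ ∑ _j : Fin n, (ρ / (n + 1)) ^ 2 :=
      Finset.sum_le_sum fun j _ => by
        have := (hj j).le
        gcongr
    rw [Finset.sum_const, Finset.card_univ, Fintype.card_fin, nsmul_eq_mul] at h3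
    refine h3.trans_lt ?_
    rw [div_pow, ← mul_div_assoc, div_lt_iff₀ (by positivity)]
    nlinarith [sq_pos_of_pos hρ, sq_nonneg (n:ℝ), (Nat.cast_nonneg n : (0:ℝ) ≤ n)]

theorem exists_pts {n d : ℕ} {B : Type} [CommRing B] [IsDomain B] [Algebra ℂ B]
    (G : Germ n d B) (x : Pt B) (hx : proj G.y x = 0)
    (h2 : 2 ≤ paramLength ℂ (RingHom.ker x) G.y) : Nonempty (Pts G x) := by
  obtain ⟨sg, h⟩ := G.exists_sep x hx 1
  obtain ⟨ρ₀, hρ₀, hsh⟩ := h.sheets le_rfl
  have key : ∀ ν : ℕ, ∃ (q : Fin n → ℂ) (p p' : Pt B), nq q < (ρ₀ / (ν + 1)) ^ 2 ∧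
      eval q G.D ≠ 0 ∧ proj G.y p = q ∧ proj G.y p' = q ∧ p ≠ p' ∧ ‖p sg - 1‖ < 1 / 2 ∧
      ‖p' sg - 1‖ < 1 / 2 := by
    intro ν
    obtain ⟨q, hq, hD⟩ := sheets_eval_ne G.D_ne (ρ := ρ₀ / (ν + 1)) (by positivity)
    have hq' : nq q < ρ₀ ^ 2 := hq.trans_le (by
      gcongr
      exact div_le_self hρ₀.le (by linarith [(Nat.cast_nonneg ν : (0:ℝ) ≤ ν)]))
    have hc := hsh q hq' hD
    have h3 : 1 < {χ : Pt B | proj G.y χ = q ∧ ‖χ sg - 1‖ < 1 / 2}.ncard := by
      rw [hc]; omega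
    obtain ⟨p, p', hp, hp', hne⟩ :=
      (Set.one_lt_ncard_iff (Set.finite_of_ncard_pos (zero_lt_one.trans h3))).1 h3
    exact ⟨q, p, p', hq, hD, hp.1, hp'.1, hne, hp.2, hp'.2⟩
  choose q p p' hq hD hp hp' hne hps hps' using key
  have hqt : Tendsto q atTop (nhds 0) := by
    rw [tendsto_zero_iff_norm_tendsto_zero]
    refine squeeze_zero (fun _ => norm_nonneg _) (g := fun ν : ℕ => ρ₀ / (ν + 1))
      (fun ν => (sheets_norm_lt (by positivity) (hq ν)).le) ?_
    have := (tendsto_one_div_add_atTop_nhds_zero_nat (𝕜 := ℝ)).const_mul ρ₀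
    simpa only [mul_one_div, mul_zero] using this
  have hpt : ∀ (r : ℕ → Pt B), (∀ ν, proj G.y (r ν) = q ν) → (∀ ν, ‖r ν sg - 1‖ < 1 / 2) →
      ∀ b, Tendsto (fun ν => r ν b) atTop (nhds (x b)) := by
    intro r hr hrs b
    rw [Metric.tendsto_atTop]
    intro ε hε
    obtain ⟨ρ, hρ, hU⟩ := h.tends le_rfl b hε
    obtain ⟨N, hN⟩ := exists_nat_gt (ρ₀ / ρ)
    refine ⟨N, fun ν hν => ?_⟩
    rw [dist_eq_norm]
    refine hU _ ⟨?_, hrs ν⟩
    rw [hr]
    refine (hq ν).trans_le ?_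
    have h3 : (N : ℝ) ≤ ν := by exact_mod_cast hν
    have h4 : ρ₀ / (ν + 1) ≤ ρ := by
      rw [div_le_iff₀ (by positivity)]
      rw [div_lt_iff₀ hρ] at hN
      nlinarith
    gcongr
  exact ⟨⟨q, ![p, p'], by
      intro i ν
      fin_cases i
      · exact hp ν
      · exact hp' ν, hD, hne, hqt, by
      intro i b
      fin_cases i
      · exact hpt p hp hps b
      · exact hpt p' hp' hps' b⟩⟩

end Pool.Agent.Odp2
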